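import Mathlib
import Pool.Agent.Helper73.RC.Main

/-!
Problem MP_f501d0_co, Q1 (the winner of the reverse clique game `(K_18, K_4, -)`).  The game is
cold: making two moves in succession never helps, one pass more than the opponent is decisive, and
one additional disjoint edge changes the winner.
-/

set_option autoImplicit false

namespace Pool.Agent.Results.MP_f501d0_co.TempoTheorem

open Pool.Agent.Helper73.RC

/-- The reverse clique game on the graph `j K_n + m K_2` (`j` disjoint copies of `K_n` and `m`
disjoint edges), in which the player to move has `p` and his opponent has `q` optional passes.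
`Wins j n k m p q A B` and `Loses j n k m p q A B`: the player to move, who owns the edges `A` (his
opponent owns `B`), wins or loses.  `Wins 1 18 4 0 0 0 ∅ ∅` says that the first player wins
`(K_18, K_4, -)`.

Let `n`, `k ≥ 3` be such that every `2`-colouring of `K_n` has a monochromatic `K_k` (for instance
`n ≥ 18`, `k = 4`, or `n ≥ 6`, `k = 3`), and let `j ≥ 1`.
(1) In every position exactly one player wins.
(2) In every position with equal numbers of passes, the passes and an even number of disjoint edges
do not matter; for an odd number of disjoint edges the player to move wins if and only if, without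
disjoint edges, his opponent would lose if it were the opponent's turn; if the player to move wins,
he also wins if his opponent makes two moves in succession instead; and if a player wins for one of
the two possible turns, then he wins with an additional pass for both turns.
(3) In every position which is isomorphic to its colour swap (by a permutation of the copies and a
permutation of the vertices), the player with more passes wins, and for equal numbers of passes the
player to move wins if and only if [he wins without disjoint edges and passes] is equivalent to
[`m` is even].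
(4) At the start: the player with more passes wins; for equal numbers of passes the first player
wins if and only if [`j` is odd and the first player wins `(K_n, K_k, -)`] is equivalent to [`m` is
even].
(5) If the first player wins `(K_n, K_k, -)`, then the position with exactly one coloured edge is
lost for the player to move, whoever he is.
(6) The first player wins `(K_n, K_k, -)` if and only if the player to move wins every position
with one edge of each colour (up to isomorphism there are two: adjacent and disjoint edges). -/
theorem result :
    (∀ j n k : ℕ, 3 ≤ k → Ramsey n k → 1 ≤ j →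
      (∀ (m p q : ℕ) (A B : Finset (Fin j × Sym2 (Fin n))), ¬ Clique k A → ¬ Clique k B →
        (Loses j n k m p q A B ↔ ¬ Wins j n k m p q A B)) ∧
      (∀ (m p : ℕ) (A B : Finset (Fin j × Sym2 (Fin n))), ¬ Clique k A → ¬ Clique k B →
        (Even m → (Wins j n k m p p A B ↔ Wins j n k 0 0 0 A B)) ∧
        (Odd m → (Wins j n k m p p A B ↔ Loses j n k 0 0 0 B A)) ∧
        (Wins j n k m p p A B → ∀ e ∈ board j n, e ∉ A → e ∉ B → ¬ Clique k (insert e B) →
          Loses j n k m p p (insert e B) A) ∧
        ((Wins j n k m p p A B ∨ Loses j n k m p p B A) →
          ∀ q, p < q → Wins j n k m q p A B ∧ Loses j n k m p q B A)) ∧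
      (∀ (τ : Equiv.Perm (Fin j)) (σ : Equiv.Perm (Fin n)) (A B : Finset (Fin j × Sym2 (Fin n))),
        ¬ Clique k A → A.map (autEmb τ σ) = B → B.map (autEmb τ σ) = A →
        ∀ m p q : ℕ, Wins j n k m p q A B ↔
          (q < p ∨ (p = q ∧ (Wins j n k 0 0 0 A B ↔ Even m)))) ∧
      (∀ m p q : ℕ, Wins j n k m p q ∅ ∅ ↔
        (q < p ∨ (p = q ∧ ((Odd j ∧ Wins 1 n k 0 0 0 ∅ ∅) ↔ Even m)))) ∧
      (Wins 1 n k 0 0 0 ∅ ∅ → ∀ e ∈ board 1 n,
        Loses 1 n k 0 0 0 {e} ∅ ∧ Loses 1 n k 0 0 0 ∅ {e}) ∧
      (Wins 1 n k 0 0 0 ∅ ∅ ↔ ∀ e ∈ board 1 n, ∀ f ∈ board 1 n, e ≠ f →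
        Wins 1 n k 0 0 0 {e} {f})) ∧
    (∀ n : ℕ, 18 ≤ n → Ramsey n 4) ∧ (∀ n : ℕ, 6 ≤ n → Ramsey n 3) :=
  ⟨fun _ _ _ hk hR hj => main hk hR hj, fun _ hn => ramsey4 hn, fun _ hn => ramsey3 hn⟩

end Pool.Agent.Results.MP_f501d0_co.TempoTheorem
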